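import Pool.Agent.H85.AU.Targets

/-!
# MP_c9ef16_gt, board AU: module G14
-/

open CategoryTheory CategoryTheory.Limits TopologicalSpace Topology Set
open Pool.Agent.H96.AL Pool.Agent.H85.AU

universe w

namespace Pool.Agent.H20.AU

lemma ext_eq_zero_of_isZero {C : Type 1} [Category.{0} C] [Abelian C] [HasExt.{w} C] {A B : C}
    (hA : IsZero A) {n : ℕ} (α : Abelian.Ext.{w} A B n) : α = 0 := by
  rw [← Abelian.Ext.mk₀_id_comp α, hA.eq_of_src (𝟙 A) 0, Abelian.Ext.mk₀_zero,
    Abelian.Ext.zero_comp]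

lemma good_of_isZero {X : Type} [TopologicalSpace X] {C : Type 1} [Category.{0} C] [Abelian C]
    [HasExt.{w} C] (c : CutSys X C) {A : C} (hA : IsZero A) (B : C) (x : X) :
    CutSys.Good.{w} c A B x := by
  intro n V hx
  refine ⟨V, hx, le_rfl, (finite_singleton (0 : Abelian.Ext.{w} (c.ob V A) B n)).subset ?_⟩
  rintro _ ⟨α, rfl⟩
  exact ext_eq_zero_of_isZero (c.isZero_ob hA V) _

/-- G14 -/
theorem pf_G14 (hG13 : T_G13.{w}) (hGRC : T_GRC) (hMDA : T_MDA.{w}) (hGLC : T_GLC.{w})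
    (hWIL : T_WIL.{w}) : T_G14.{w} := by
  intro X _ _ _ C _ _ _ Z hZ hm t m hA N A B hcA hcB
  have key : ∀ k j, j + k = m → ∀ x, CutSys.Good.{w} t.toCutSys (t.ob (co hZ j) A) B x := by
    intro k
    induction k with
    | zero =>
      intro j hj x
      have h1 : co hZ j = ⊥ := by
        apply Opens.ext
        show (Z j)ᶜ = ∅
        rw [show j = m from hj, hA.top, compl_univ]
      rw [h1]
      exact good_of_isZero _ (t.bot A) B x
    | succ k ih =>
      intro j hj x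
      obtain ⟨hconc, S, hS, h1, h2, h3⟩ := hGRC X C t.toCutSys Z hZ hm j A
      have g1 : CutSys.Good.{w} t.toCutSys S.X₁ B x := by
        rw [h1]
        exact ih (j + 1) (by omega) x
      have g3 : CutSys.Good.{w} t.toCutSys S.X₃ B x := by
        rw [h3]
        exact hG13 X C Z hZ hm t m hA N _ B (t.con_gr N A j hcA) hcB j hconc x
      have g2 := hMDA X C t.toCutSys S hS B x g1 g3
      rw [h2] at g2
      exact g2
  have h0 : co hZ 0 = ⊤ := by
    apply Opens.ext
    show (Z 0)ᶜ = univ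
    rw [hA.zero, compl_empty]
  have good : ∀ x, CutSys.Good.{w} t.toCutSys A B x := by
    intro x
    have h1 := key m 0 (Nat.zero_add m) x
    rw [h0] at h1
    exact hGLC X C t.toCutSys A (t.ob ⊤ A) B x ⊤ trivial
      ⟨t.toCutSys.fmi ⊤ (t.toCutSys.topI A).symm⟩ h1
  refine ⟨good, fun n => ?_⟩
  obtain ⟨U, hU, hle, hfin⟩ := hWIL X C t.toCutSys A B ⊤ (fun x _ => good x) univ isCompact_univ
    (fun x _ => trivial) n
  obtain rfl : U = ⊤ := by
    apply Opens.ext
    exact univ_subset_iff.1 hU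
  have hf : Finite (Abelian.Ext.{w} (t.ob ⊤ A) B n) := by
    refine Set.finite_univ_iff.1 (hfin.subset fun α _ => ⟨α, ?_⟩)
    exact t.toCutSys.rs_refl A B n ⊤ α
  refine Finite.of_injective (fun α : Abelian.Ext.{w} A B n =>
    ((Abelian.Ext.mk₀ (t.toCutSys.topI A).hom).comp α (zero_add n) :
      Abelian.Ext.{w} (t.ob ⊤ A) B n)) ?_
  intro α β hαβ
  have h2 := congrArg (fun γ : Abelian.Ext.{w} (t.ob ⊤ A) B n =>
    (Abelian.Ext.mk₀ (t.toCutSys.topI A).inv).comp γ (zero_add n)) hαβ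
  simp only [Abelian.Ext.mk₀_comp_mk₀_assoc, Iso.inv_hom_id, Abelian.Ext.mk₀_id_comp] at h2
  exact h2

end Pool.Agent.H20.AU
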