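import Pool.Agent.H85.AU.Targets

/-!
# MP_c9ef16_gt, board AU: modules PSH and G11
-/

open CategoryTheory CategoryTheory.Limits TopologicalSpace Topology Set
open Pool.Agent.H96.AL Pool.Agent.H85.AU

universe w

namespace Pool.Agent.H20.AU

/-- PSH -/
theorem pf_PSH (hWIL : T_WIL.{w}) : T_PSH.{w} := by
  intro X _ _ _ C _ _ _ Z hZ hm t m hA N A B hcA hcB j x hx hgood n V hxV
  obtain ⟨U, hUo, hxU, hUV, h, hh, K, hK, hKV, h1⟩ := hA.push j x hx V V.isOpen hxV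
  have hKO : K ⊆ ((V ⊓ co hZ j : Opens X) : Set X) := fun y hy => ⟨(hKV hy).1, (hKV hy).2⟩
  obtain ⟨O, hKO', hO, hfin⟩ := hWIL X C t.toCutSys A B (V ⊓ co hZ j)
    (fun y hy => hgood y hy.2) K hK hKO n
  have hle : (⟨U, hUo⟩ : Opens X) ⊓ co hZ j ≤ V ⊓ co hZ j := inf_le_inf_right _ hUV
  refine ⟨⟨U, hUo⟩, hxU, hUV, hle, ?_⟩
  refine finite_range_of_ker (CutSys.rs.{w} t.toCutSys A B n hO) _ hfin {0}
    (finite_singleton 0) fun α hα => ?_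
  exact t.sh1 N A B hcA hcB _ _ O hO hle h hh (fun y hy => hKO' (h1 y hy)) n α hα

/-- G11 -/
theorem pf_G11 : T_G11.{w} := by
  intro X _ _ _ C _ _ _ Z hZ hm t m hA N B hB x n V hx
  obtain ⟨U, hUo, hxU, hUV, hO⟩ := hA.contract x V V.isOpen hx
  refine ⟨⟨U, hUo⟩, hxU, hUV, ?_⟩
  obtain ⟨M, _, _, φ, hφ⟩ := t.germ N B hB n V x hx
  refine finite_range_of_ker φ _ (Set.toFinite _) {0} (finite_singleton 0) fun α hα => ?_
  obtain ⟨O, hxO, hOV, h0⟩ := hφ α hα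
  obtain ⟨h, hh, h1⟩ := hO O O.isOpen hxO
  exact t.sh1 (max 1 N) t.one B (t.con_mono _ _ (le_max_left _ _) _ t.con_one)
    (t.con_mono _ _ (le_max_right _ _) _ hB) ⟨U, hUo⟩ V O hOV hUV h hh h1 n α h0

end Pool.Agent.H20.AU
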